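import Mathlib
import Pool.Agent.Q6.BaseSn.Groups

/-!
# MP_3e5dca_al, Q1: no

Every faithful action of the symmetric group of degree `n` on a finite set has a base with at most
`n` points.
-/

namespace Pool.Agent.Results.MP_3e5dca_al.AtMostDegree

open Equiv

/-- `B` is a base for the action of `G` on `X`: its pointwise stabiliser is trivial. -/
def IsBase (G : Type) {X : Type} [Group G] [MulAction G X] (B : Finset X) : Prop :=
  ∀ g : G, (∀ x ∈ B, g • x = x) → g = 1

/-- The base size `b(G, X)`, the smallest cardinality of a base. -/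
noncomputable def baseSize (G X : Type) [Group G] [MulAction G X] : ℕ :=
  sInf {k | ∃ B : Finset X, IsBase G B ∧ B.card = k}

/-- A subgroup can be killed by few points. -/
theorem kill {G X : Type} [Group G] [Finite G] [MulAction G X] [FaithfulSMul G X] (m : ℕ) :
    ∀ K : Subgroup G, Nat.card K ≤ m → ∃ S : Finset X, 2 ^ S.card ≤ Nat.card K ∧
      ∀ g ∈ K, (∀ x ∈ S, g • x = x) → g = 1 := by
  classical
  induction m with
  | zero =>
    intro K hK
    have : 0 < Nat.card K := Nat.card_pos
    omega
  | succ m ih =>
    intro K hK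
    by_cases hbot : K = ⊥
    · refine ⟨∅, ?_, ?_⟩
      · rw [Finset.card_empty, pow_zero]
        exact Nat.card_pos
      · intro g hg _
        rw [hbot, Subgroup.mem_bot] at hg
        exact hg
    · obtain ⟨⟨k, hk⟩, hk1'⟩ := Subgroup.ne_bot_iff_exists_ne_one.1 hbot
      have hk1 : k ≠ 1 := fun h => hk1' (Subtype.ext h)
      obtain ⟨x, hx⟩ : ∃ x : X, k • x ≠ x := by
        by_contra hcon
        push Not at hcon
        apply hk1
        apply FaithfulSMul.eq_of_smul_eq_smul (α := X)
        intro a
        rw [hcon, one_smul]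
      let L : Subgroup G := K ⊓ MulAction.stabilizer G x
      have hLK : L ≤ K := inf_le_left
      have hne : L ≠ K := by
        intro h
        have h1 : k ∈ L := by rw [h]; exact hk
        exact hx h1.2
      have hcard : 2 * Nat.card L ≤ Nat.card K := by
        obtain ⟨c, hc⟩ := Subgroup.card_dvd_of_le hLK
        have hLpos : 0 < Nat.card L := Nat.card_pos
        have hKpos : 0 < Nat.card K := Nat.card_pos
        have hc0 : c ≠ 0 := by
          rintro rfl
          rw [mul_zero] at hc
          omega
        have hc1 : c ≠ 1 := by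
          rintro rfl
          rw [mul_one] at hc
          exact hne (Subgroup.eq_of_le_of_card_ge hLK hc.le)
        rw [hc, mul_comm]
        exact Nat.mul_le_mul_left _ (by omega)
      have hLpos : 0 < Nat.card L := Nat.card_pos
      obtain ⟨S, hS1, hS2⟩ := ih L (by omega)
      refine ⟨insert x S, ?_, ?_⟩
      · have h1 : 2 ^ (insert x S).card ≤ 2 ^ (S.card + 1) :=
          Nat.pow_le_pow_right (by norm_num) (Finset.card_insert_le x S)
        rw [pow_succ] at h1
        omega
      · intro g hg hgS
        apply hS2 g ⟨hg, hgS x (Finset.mem_insert_self _ _)⟩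
        intro y hy
        exact hgS y (Finset.mem_insert_of_mem hy)

theorem exists_base (n : ℕ) (hn : 1 ≤ n) (X : Type) [Finite X] [MulAction (Perm (Fin n)) X]
    [FaithfulSMul (Perm (Fin n)) X] :
    ∃ B : Finset X, IsBase (Perm (Fin n)) B ∧ B.card ≤ n := by
  classical
  rcases Nat.lt_or_ge n 5 with hlt | hge
  · obtain ⟨S, hS1, hS2⟩ := kill (X := X) _ (⊤ : Subgroup (Perm (Fin n))) le_rfl
    refine ⟨S, fun g hg => hS2 g (Subgroup.mem_top _) hg, ?_⟩
    have h1 : Nat.card (⊤ : Subgroup (Perm (Fin n))) = n.factorial := by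
      rw [Subgroup.card_top, Nat.card_perm, Nat.card_eq_fintype_card, Fintype.card_fin]
    rw [h1] at hS1
    by_contra hcon
    push Not at hcon
    have h2 : 2 ^ (n + 1) ≤ 2 ^ S.card := Nat.pow_le_pow_right (by norm_num) hcon
    have h3 : 2 ^ (n + 1) ≤ n.factorial := h2.trans hS1
    interval_cases n <;> revert h3 <;> decide
  · -- a point whose stabilizer does not contain the alternating group
    obtain ⟨x0, hx0⟩ : ∃ x : X, ¬ alternatingGroup (Fin n) ≤ MulAction.stabilizer (Perm (Fin n)) x := by
      by_contra hcon
      push Not at hcon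
      let i0 : Fin n := ⟨0, by omega⟩
      let i1 : Fin n := ⟨1, by omega⟩
      let i2 : Fin n := ⟨2, by omega⟩
      have h01 : i0 ≠ i1 := fun h => by
        have h' : (0 : ℕ) = 1 := congrArg Fin.val h
        omega
      have h02 : i0 ≠ i2 := fun h => by
        have h' : (0 : ℕ) = 2 := congrArg Fin.val h
        omega
      have h12 : i1 ≠ i2 := fun h => by
        have h' : (1 : ℕ) = 2 := congrArg Fin.val h
        omega
      have h3 := Perm.isThreeCycle_swap_mul_swap_same h01 h02 h12
      have hm : swap i0 i1 * swap i0 i2 ∈ alternatingGroup (Fin n) := h3.mem_alternatingGroup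
      apply h3.ne_one
      apply FaithfulSMul.eq_of_smul_eq_smul (α := X)
      intro a
      rw [one_smul]
      exact hcon a hm
    set H := MulAction.stabilizer (Perm (Fin n)) x0 with hH
    have hmem : ∀ g h : Perm (Fin n), h • (g • x0) = g • x0 → g⁻¹ * h * g ∈ H := by
      intro g h hgh
      rw [hH, MulAction.mem_stabilizer_iff, mul_smul, mul_smul, hgh, inv_smul_smul]
    by_cases hc : ∃ c ∈ H, Perm.IsThreeCycle c
    · obtain ⟨c, hcH, hc3⟩ := hc
      obtain ⟨S, hS1, hS2⟩ := Q6.BaseSn.case_one hx0 hcH hc3
      refine ⟨S.image (fun g => g • x0), ?_, Finset.card_image_le.trans hS1⟩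
      intro h hh
      apply hS2
      intro g hg
      exact hmem g h (hh _ (Finset.mem_image.2 ⟨g, hg, rfl⟩))
    · push Not at hc
      obtain ⟨S, hS1, hS2⟩ := Q6.BaseSn.case_two hge hc
      -- the pointwise stabilizer of the first points
      let K : Subgroup (Perm (Fin n)) := ⨅ g ∈ S, MulAction.stabilizer (Perm (Fin n)) (g • x0)
      have hK : ∀ h, h ∈ K ↔ ∀ g ∈ S, h • (g • x0) = g • x0 := by
        intro h
        simp only [K, Subgroup.mem_iInf, MulAction.mem_stabilizer_iff]
      obtain ⟨hK1, hK2⟩ := hS2 K (fun h hh g hg => hmem g h ((hK h).1 hh g hg))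
      obtain ⟨S', hS'1, hS'2⟩ := kill (X := X) _ K le_rfl
      have hS'card : S'.card ≤ 3 := by
        by_contra hcon
        push Not at hcon
        have h2 : 2 ^ 4 ≤ 2 ^ S'.card := Nat.pow_le_pow_right (by norm_num) hcon
        rcases Nat.lt_or_ge n 13 with h13 | h13
        · omega
        · have := hK2 h13
          omega
      refine ⟨S.image (fun g => g • x0) ∪ S', ?_, ?_⟩
      · intro h hh
        apply hS'2 h
        · rw [hK]
          intro g hg
          exact hh _ (Finset.mem_union_left _ (Finset.mem_image.2 ⟨g, hg, rfl⟩))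
        · intro x hx
          exact hh x (Finset.mem_union_right _ hx)
      · have c1 := Finset.card_union_le (S.image (fun g => g • x0)) S'
        have c2 := Finset.card_image_le (s := S) (f := fun g => g • x0)
        omega

/-- For every `n ≥ 1` and every faithful action of the symmetric group of degree `n` on a finite
set `X` the base size is at most `n` (and a base of at most `n` points exists). -/
theorem result : ∀ n : ℕ, 1 ≤ n → ∀ (X : Type) [Finite X] [MulAction (Perm (Fin n)) X]
    [FaithfulSMul (Perm (Fin n)) X], baseSize (Perm (Fin n)) X ≤ n ∧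
      ∃ B : Finset X, IsBase (Perm (Fin n)) B ∧ B.card ≤ n := by
  intro n hn X _ _ _
  obtain ⟨B, hB1, hB2⟩ := exists_base n hn X
  refine ⟨?_, B, hB1, hB2⟩
  have h : B.card ∈ {k | ∃ B : Finset X, IsBase (Perm (Fin n)) B ∧ B.card = k} := ⟨B, hB1, rfl⟩
  exact (Nat.sInf_le h).trans hB2

end Pool.Agent.Results.MP_3e5dca_al.AtMostDegree
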